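import Pool.Agent.H67.NW.PertW
import Pool.Agent.H48.PL.Thin
import Pool.Agent.H82.NT.All

/-!
# Block O of P-WIDE, module MedW: medium velocities

`thin_boundW`, `all_boundW`: as `thin_bound` (PL/Thin) and `all_bound` (NT/AllB) with the function `TbP ≥ g`, `TbP ≥ Tb/2 ≥ g v/(2·4^p)`.
-/

set_option autoImplicit false

open MeasureTheory Set Filter Topology Pool.Agent.H25.Kin Pool.Agent.H82.BK Pool.Agent.H82.CM
open Pool.Agent.H48.PL Pool.Agent.H48.PW Pool.Agent.H82.NT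
open scoped ENNReal

namespace Pool.Agent.H67.NW

variable {d : ℕ} {γ s β C Ca cb : ℝ} {b : ℝ → ℝ}

private lemma th_small {p t t₀ : ℝ} (hp : 0 < p) (ht : 0 < t) (ht₀ : 0 < t₀) :
    ∃ u : ℝ, 0 < u ∧ u ≤ t₀ ∧ u ^ p ≤ t := by
  refine ⟨min t₀ (t ^ (1 / p)), lt_min ht₀ (by positivity), min_le_left _ _, ?_⟩
  have h0 : 0 ≤ min t₀ (t ^ (1 / p)) := le_min ht₀.le (by positivity)
  refine (Real.rpow_le_rpow h0 (min_le_right _ _) hp.le).trans (le_of_eq ?_)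
  rw [← Real.rpow_mul ht.le, one_div, inv_mul_cancel₀ hp.ne', Real.rpow_one]

private lemma th_nm {L : ℝ} {v m : Vec d} (h : nsq (v - m) ≤ L * (1 + nsq v)) :
    nsq m ≤ (2 + 2 * L) * (1 + nsq v) := by
  have e1 := nsq_par v (v - m)
  have e2 : v - (v - m) = m := by abel
  rw [e2] at e1
  have e3 := sq_nonneg' (v + (v - m))
  have e4 := sq_nonneg' v
  nlinarith

open Classical in
/-- the small deflections -/
private noncomputable def thSd (S : Set (Vec d)) (γ : ℝ) (b : ℝ → ℝ) (ε : ℝ) (m σ : Vec d) : ℝ≥0∞ :=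
  if hh σ m ∈ S then ENNReal.ofReal (Kn d γ (bt b ε) (co m σ)) else 0

open Classical in
private noncomputable def thSg (S : Set (Vec d)) (γ : ℝ) (b : ℝ → ℝ) (ε : ℝ) (g : Vec d → ℝ)
    (v m σ : Vec d) : ℝ≥0∞ :=
  if hh σ m ∈ S then
    ENNReal.ofReal (Kn d γ (bt b ε) (co m σ) * g (v + hh σ m)) else 0

open Classical in
private noncomputable def thRg (θ L γ : ℝ) (b : ℝ → ℝ) (ε : ℝ) (g : Vec d → ℝ)
    (v m σ : Vec d) : ℝ≥0∞ :=
  if (v - m, v + hh σ m) ∈ RegS θ L v then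
    ENNReal.ofReal (Kn d γ (bt b ε) (co m σ) * g (v + hh σ m)) else 0

private lemma th_Knm (hb : Measurable b) (ε : ℝ) (m : Vec d) :
    Measurable fun σ : Vec d => Kn d γ (bt b ε) (co m σ) := by
  have hcom : Measurable fun σ : Vec d => co m σ :=
    measurable_co.comp (measurable_const.prodMk measurable_id)
  have hbt := measurable_bt (b := b) hb ε
  have hKm' : Measurable (Kn d γ (bt b ε)) := by
    unfold Kn
    have h1 : Measurable fun c : ℝ => c ^ (-2 - γ) := measurable_id.pow_const _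
    have h2 : Measurable fun c : ℝ => bt b ε (2 * c ^ 2 - 1) := hbt.comp (by fun_prop)
    exact (measurable_const.mul h1).mul h2
  exact hKm'.comp hcom

private lemma th_hhm (m : Vec d) : Measurable fun σ : Vec d => hh σ m := by
  have h1 : Measurable fun σ : Vec d => ((m, σ) : Vec d × Vec d) :=
    measurable_const.prodMk measurable_id
  have h2 := (measurable_hh (d := d)).comp h1
  exact h2

private lemma thSd_meas (hb : Measurable b) {S : Set (Vec d)} {m : Vec d}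
    (hS : MeasurableSet {σ : Vec d | hh σ m ∈ S}) (ε : ℝ) :
    Measurable fun σ => thSd S γ b ε m σ :=
  Measurable.ite hS (th_Knm hb ε m).ennreal_ofReal measurable_const

private lemma thRg_meas (hb : Measurable b) (θ L ε : ℝ) {g : Vec d → ℝ} (hg : Measurable g) (v m : Vec d) :
    Measurable fun σ => thRg θ L γ b ε g v m σ := by
  have hRg : MeasurableSet {σ : Vec d | (v - m, v + hh σ m) ∈ RegS θ L v} := by
    have h2 : Measurable fun σ : Vec d => (v - m, v + hh σ m) :=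
      measurable_const.prodMk (measurable_const.add (th_hhm m))
    exact h2 (measurableSet_RegS θ L v)
  exact Measurable.ite hRg
    ((th_Knm hb ε m).mul (hg.comp (measurable_const.add (th_hhm m)))).ennreal_ofReal measurable_const

private lemma th_pt (H : Hyp d γ s b C Ca) (p : ℕ) {L τ θ δ₁ ε c : ℝ} {S : Set (Vec d)}
    (hτ5 : τ ^ 2 * (2 + 2 * L) ≤ 1 / 8) (hδ₁ : δ₁ ≤ 1 / 2) (hε : 0 < ε) (hc : 0 ≤ c) {g : Vec d → ℝ}
    {v m : Vec d} {P : Vec d → ℝ} (hP : PCond δ₁ β v P) (hT : ∀ u, g u ≤ TbP p c v P u)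
    (hS1 : ∀ h ∈ S, nsq h ≤ τ ^ 2 * nsq m) (hv : nsq (v - m) ≤ L * (1 + nsq v))
    {σ : Vec d} (hσ : nsq σ = 1) (hmσ : 0 < dot m σ) :
    thRg θ L γ b ε g v m σ + ENNReal.ofReal (c / (2 * 4 ^ p)) * thSd S γ b ε m σ ≤
      thSg S γ b ε g v m σ + thRg θ L γ b ε (TbP p c v P) v m σ := by
  have hK0 := fast_Kn0 (γ := γ) H.bd hε hσ hmσ
  have hnm := th_nm hv
  have hA : 0 < 1 + nsq v := by have := sq_nonneg' v; linarith
  unfold thRg thSd thSg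
  by_cases hS : hh σ m ∈ S
  · have hn : nsq (hh σ m) ≤ (1 + nsq v) / 8 := by
      refine (hS1 _ hS).trans ?_
      calc τ ^ 2 * nsq m ≤ τ ^ 2 * ((2 + 2 * L) * (1 + nsq v)) :=
            mul_le_mul_of_nonneg_left hnm (sq_nonneg _)
        _ = (τ ^ 2 * (2 + 2 * L)) * (1 + nsq v) := by ring
        _ ≤ 1 / 8 * (1 + nsq v) := mul_le_mul_of_nonneg_right hτ5 hA.le
        _ = _ := by ring
    have hR : (v - m, v + hh σ m) ∈ RegS θ L v := by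
      refine ⟨?_, ?_⟩
      · rintro ⟨_, q2⟩
        change (1 + nsq v) / 4 ≤ nsq (v + hh σ m - v) at q2
        rw [add_sub_cancel_left] at q2
        linarith
      · rintro ⟨q1, _⟩
        change L * (1 + nsq v) < nsq (v - m) at q1
        linarith
    have hTl : c / (2 * 4 ^ p) ≤ TbP p c v P (v + hh σ m) := by
      have h1 := Tb_low (p := p) hc (v := v) (u := v + hh σ m) (by
        rw [add_sub_cancel_left]
        linarith)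
      have h2 := TbP_half (p := p) hP hδ₁ hc (v + hh σ m)
      refine le_trans ?_ h2
      calc c / (2 * 4 ^ p) = c / 4 ^ p / 2 := by field_simp
        _ ≤ _ := by linarith
    rw [if_pos hR, if_pos hS, if_pos hS, if_pos hR]
    refine add_le_add le_rfl ?_
    rw [← ENNReal.ofReal_mul (by positivity)]
    refine ENNReal.ofReal_le_ofReal ?_
    rw [mul_comm]
    exact mul_le_mul_of_nonneg_left hTl hK0
  · rw [if_neg hS, if_neg hS, mul_zero, add_zero, zero_add]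
    split_ifs
    · exact ENNReal.ofReal_le_ofReal (mul_le_mul_of_nonneg_left (hT _) hK0)
    · exact le_rfl

private lemma th_main (H : Hyp d γ s b C Ca) (p : ℕ) {L τ θ δ₁ ε c : ℝ} {S : Set (Vec d)}
    (hτ5 : τ ^ 2 * (2 + 2 * L) ≤ 1 / 8) (hδ₁ : δ₁ ≤ 1 / 2) (hε : 0 < ε) (hc : 0 ≤ c) {g : Vec d → ℝ}
    {v m : Vec d} {P : Vec d → ℝ} (hP : PCond δ₁ β v P) (hT : ∀ u, g u ≤ TbP p c v P u)
    (hS : MeasurableSet {σ : Vec d | hh σ m ∈ S})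
    (hS1 : ∀ h ∈ S, nsq h ≤ τ ^ 2 * nsq m) (hv : nsq (v - m) ≤ L * (1 + nsq v)) :
    GMg γ b ε g (RegS θ L v) v m + ENNReal.ofReal (c / (2 * 4 ^ p)) *
      ∫⁻ σ in {σ : Vec d | 0 < dot m σ}, thSd S γ b ε m σ ∂(surf d) ≤
      (∫⁻ σ in {σ : Vec d | 0 < dot m σ}, thSg S γ b ε g v m σ ∂(surf d)) +
        GMg γ b ε (TbP p c v P) (RegS θ L v) v m := by
  have hSm := thSd_meas (γ := γ) (b := b) H.bm hS ε
  have hJm := thRg_meas (γ := γ) (b := b) H.bm θ L ε (TbP_meas hP.meas p c v) v m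
  have e1 : GMg γ b ε g (RegS θ L v) v m =
      ∫⁻ σ in {σ : Vec d | 0 < dot m σ}, thRg θ L γ b ε g v m σ ∂(surf d) := rfl
  have e2 : GMg γ b ε (TbP p c v P) (RegS θ L v) v m =
      ∫⁻ σ in {σ : Vec d | 0 < dot m σ}, thRg θ L γ b ε (TbP p c v P) v m σ ∂(surf d) := rfl
  rw [e1, e2, ← lintegral_const_mul _ hSm, ← lintegral_add_right _ (hSm.const_mul _),
    ← lintegral_add_right _ hJm]
  refine lintegral_mono_ae ?_
  filter_upwards [ae_restrict_of_ae surf_ae, ae_restrict_mem (measurableSet_half m)] with σ hσ hmσ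
  exact th_pt H p hτ5 hδ₁ hε hc hP hT hS1 hv hσ hmσ

private lemma th_med (H : Hyp d γ s b C Ca) (h1 : 2 * s < β) (ha1 : β ≤ 1) (p : ℕ) :
    ∃ K : ℝ, 0 ≤ K ∧ ∀ (θ L δ₁ : ℝ), 0 ≤ δ₁ → δ₁ ≤ 1 → 1 ≤ L → ∀ c : ℝ, 0 ≤ c →
      ∀ (v : Vec d) (P : Vec d → ℝ), PCond δ₁ β v P → ∀ m : Vec d, m ≠ 0 →
      nsq (v - m) ≤ L * (1 + nsq v) → ∀ ε > 0,
      GMg γ b ε (TbP p c v P) (RegS θ L v) v m ≤ ENNReal.ofReal c * BB b ε (dir m) +
        ENNReal.ofReal (K * (1 + (2 + 2 * L)) ^ s * c) := by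
  have hs := H.hs
  obtain ⟨K₁, hK₁, hmed⟩ := med_PW H h1 ha1 p
  refine ⟨K₁, hK₁, fun θ L δ₁ hδ₁ hδ₁1 hL c hc v P hP m hm hv ε hε => ?_⟩
  have hA : 0 < 1 + nsq v := by have := sq_nonneg' v; linarith
  have hm1 := hmed θ L δ₁ hδ₁ hδ₁1 c hc v P hP m hm ε hε
  have hnm := th_nm hv
  have hQ : (1 + nsq m / (1 + nsq v)) ^ s ≤ (1 + (2 + 2 * L)) ^ s := by
    refine Real.rpow_le_rpow ?_ ?_ hs.le
    · have := div_nonneg (sq_nonneg' m) hA.le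
      linarith
    · have : nsq m / (1 + nsq v) ≤ 2 + 2 * L := (div_le_iff₀ hA).2 hnm
      linarith
  refine hm1.trans (add_le_add le_rfl (ENNReal.ofReal_le_ofReal ?_))
  calc K₁ * c * (1 + nsq m / (1 + nsq v)) ^ s ≤ K₁ * c * (1 + (2 + 2 * L)) ^ s :=
        mul_le_mul_of_nonneg_left hQ (by positivity)
    _ = _ := by ring

private lemma th_tau {s M q L : ℝ} (hs : 0 < s) (hM : 0 ≤ M) (hq : 0 < q) (hL : 1 ≤ L) :
    ∃ τ : ℝ, 0 < τ ∧ τ ≤ 1 / 4 ∧ τ ^ 2 * (2 + 2 * L) ≤ 1 / 8 ∧ M ≤ q * τ ^ (-(2 * s)) := by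
  have hΛ0 : 0 < 2 + 2 * L := by linarith
  obtain ⟨τ, hτ, hτ1, hτ2⟩ := th_small (p := 2 * s) (t := q / (M + 1))
    (t₀ := min (1 / 4) (1 / (8 * (2 + 2 * L))))
    (by linarith) (by positivity) (lt_min (by norm_num) (by positivity))
  have hτ3 : τ ≤ 1 / 4 := hτ1.trans (min_le_left _ _)
  have hτ4 : τ ≤ 1 / (8 * (2 + 2 * L)) := hτ1.trans (min_le_right _ _)
  refine ⟨τ, hτ, hτ3, ?_, ?_⟩
  · have e1 : τ ^ 2 ≤ τ := by nlinarith
    have e2 : τ * (2 + 2 * L) ≤ 1 / 8 := by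
      calc τ * (2 + 2 * L) ≤ 1 / (8 * (2 + 2 * L)) * (2 + 2 * L) :=
            mul_le_mul_of_nonneg_right hτ4 hΛ0.le
        _ = 1 / 8 := by field_simp
    calc τ ^ 2 * (2 + 2 * L) ≤ τ * (2 + 2 * L) := mul_le_mul_of_nonneg_right e1 hΛ0.le
      _ ≤ 1 / 8 := e2
  · have e1 : 0 < τ ^ (2 * s) := Real.rpow_pos_of_pos hτ _
    rw [Real.rpow_neg hτ.le, ← div_eq_mul_inv, le_div_iff₀ e1]
    have e2 : τ ^ (2 * s) * (M + 1) ≤ q := (le_div_iff₀ (by positivity)).1 hτ2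
    nlinarith

private lemma th_fin {p : ℕ} {s L K₁ K₃ c₆ τ c : ℝ} (hc : 0 ≤ c) (hK₃ : 0 ≤ K₃) (hK₁ : 0 ≤ K₁)
    (hc₆ : 0 < c₆) (hL : 1 ≤ L) (hτ : 0 < τ)
    (h : K₁ * (1 + (2 + 2 * L)) ^ s + K₃ ≤ c₆ / (2 * 4 ^ p) * τ ^ (-(2 * s)))
    {G GT B I A : ℝ≥0∞} (hI : ENNReal.ofReal (c₆ * τ ^ (-(2 * s))) ≤ I)
    (hmain : G + ENNReal.ofReal (c / (2 * 4 ^ p)) * I ≤ A + GT)
    (hmed : GT ≤ B + ENNReal.ofReal (K₁ * (1 + (2 + 2 * L)) ^ s * c)) :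
    G + ENNReal.ofReal (K₃ * c) ≤ B + A := by
  set Z : ℝ := K₁ * (1 + (2 + 2 * L)) ^ s with hZ
  have hZ0 : 0 ≤ Z := by positivity
  have hfin : ENNReal.ofReal (Z * c) ≠ ⊤ := ENNReal.ofReal_ne_top
  have hsum : ENNReal.ofReal (K₃ * c) + ENNReal.ofReal (Z * c) ≤
      ENNReal.ofReal (c / (2 * 4 ^ p)) * I := by
    refine le_trans ?_ (mul_le_mul_right hI _)
    rw [← ENNReal.ofReal_add (by positivity) (by positivity), ← ENNReal.ofReal_mul (by positivity)]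
    refine ENNReal.ofReal_le_ofReal ?_
    calc K₃ * c + Z * c = c * (Z + K₃) := by ring
      _ ≤ c * (c₆ / (2 * 4 ^ p) * τ ^ (-(2 * s))) := mul_le_mul_of_nonneg_left h hc
      _ = c / (2 * 4 ^ p) * (c₆ * τ ^ (-(2 * s))) := by ring
  refine (ENNReal.add_le_add_iff_right hfin).1 ?_
  calc G + ENNReal.ofReal (K₃ * c) + ENNReal.ofReal (Z * c)
      = G + (ENNReal.ofReal (K₃ * c) + ENNReal.ofReal (Z * c)) := by rw [add_assoc]
    _ ≤ G + ENNReal.ofReal (c / (2 * 4 ^ p)) * I := add_le_add le_rfl hsum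
    _ ≤ A + GT := hmain
    _ ≤ A + (B + ENNReal.ofReal (Z * c)) := add_le_add le_rfl hmed
    _ = _ := by rw [← add_assoc, add_comm A]

theorem thin_boundW (HL : HypL d γ s b C Ca cb) (h1 : 2 * s < β) (ha1 : β ≤ 1) (p : ℕ) (e : Fin d)
    {L : ℝ} (hL : 1 ≤ L) {K₃ : ℝ} (hK₃ : 0 ≤ K₃) :
    ∃ τ ε₀ : ℝ, 0 < τ ∧ τ ≤ 1 / 4 ∧ τ ^ 2 * (2 + 2 * L) ≤ 1 / 8 ∧ 0 < ε₀ ∧
    ∀ (θ δ₁ : ℝ), 0 ≤ δ₁ → δ₁ ≤ 1 / 2 → ∀ c : ℝ, 0 ≤ c → ∀ (g : Vec d → ℝ) (v : Vec d) (P : Vec d → ℝ),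
      PCond δ₁ β v P → (∀ u, g u ≤ TbP p c v P u) →
      ∀ m : Vec d, m ≠ 0 → nsq (v - m) ≤ L * (1 + nsq v) → |m e| ≤ len m / 16 →
      ∀ ε : ℝ, 0 < ε → ε ≤ ε₀ →
      GMg γ b ε g (RegS θ L v) v m + ENNReal.ofReal (K₃ * c) ≤
        ENNReal.ofReal c * BB b ε (dir m) + TM e τ γ b ε g v m := by
  obtain ⟨K₁, hK₁, hmed⟩ := th_med HL.H h1 ha1 p
  obtain ⟨c₆, hc₆, hlow⟩ := thin_low HL e
  obtain ⟨τ, hτ, hτ3, hτ5, hτ6⟩ := th_tau (M := K₁ * (1 + (2 + 2 * L)) ^ s + K₃)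
    (q := c₆ / (2 * 4 ^ p)) (L := L) HL.H.hs (by positivity) (by positivity) hL
  refine ⟨τ, τ ^ 2 / 2, hτ, hτ3, hτ5, by positivity, ?_⟩
  intro θ δ₁ hδ₁ hδ₁1 c hc g v P hP hT m hm hmed1 hme ε hε hε1
  have hm2 := hmed θ L δ₁ hδ₁ (by linarith) hL c hc v P hP m hm hmed1 ε hε
  have hSm : MeasurableSet {σ : Vec d | hh σ m ∈ SdS e τ m} := by
    have h2 : Measurable fun σ : Vec d => (m, hh σ m) := measurable_const.prodMk (th_hhm m)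
    exact h2 (measurableSet_SdS e τ)
  have hmain := th_main (θ := θ) HL.H p hτ5 hδ₁1 hε hc hP hT hSm (fun h hh' => hh'.2.1) hmed1
  have hl : ENNReal.ofReal (c₆ * τ ^ (-(2 * s))) ≤
      ∫⁻ σ in {σ : Vec d | 0 < dot m σ}, thSd (SdS e τ m) γ b ε m σ ∂(surf d) :=
    hlow τ hτ hτ3 m hm hme ε hε hε1
  exact th_fin hc hK₃ hK₁ hc₆ hL hτ hτ6 hl hmain hm2

theorem all_boundW (HL : HypL d γ s b C Ca cb) (h1 : 2 * s < β) (ha1 : β ≤ 1) (p : ℕ)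
    {L : ℝ} (hL : 1 ≤ L) {K₃ : ℝ} (hK₃ : 0 ≤ K₃) :
    ∃ τ ε₀ : ℝ, 0 < τ ∧ τ ≤ 1 / 4 ∧ τ ^ 2 * (2 + 2 * L) ≤ 1 / 8 ∧ 0 < ε₀ ∧
    ∀ (θ δ₁ : ℝ), 0 ≤ δ₁ → δ₁ ≤ 1 / 2 → ∀ c : ℝ, 0 ≤ c → ∀ (g : Vec d → ℝ) (v : Vec d) (P : Vec d → ℝ),
      PCond δ₁ β v P → (∀ u, g u ≤ TbP p c v P u) →
      ∀ m : Vec d, m ≠ 0 → nsq (v - m) ≤ L * (1 + nsq v) →
      ∀ ε : ℝ, 0 < ε → ε ≤ ε₀ →
      GMg γ b ε g (RegS θ L v) v m + ENNReal.ofReal (K₃ * c) ≤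
        ENNReal.ofReal c * BB b ε (dir m) + AM τ γ b ε g v m := by
  obtain ⟨K₁, hK₁, hmed⟩ := th_med HL.H h1 ha1 p
  obtain ⟨c₆, hc₆, hlow⟩ := all_low HL
  obtain ⟨τ, hτ, hτ3, hτ5, hτ6⟩ := th_tau (M := K₁ * (1 + (2 + 2 * L)) ^ s + K₃)
    (q := c₆ / (2 * 4 ^ p)) (L := L) HL.H.hs (by positivity) (by positivity) hL
  refine ⟨τ, τ ^ 2 / 32, hτ, hτ3, hτ5, by positivity, ?_⟩
  intro θ δ₁ hδ₁ hδ₁1 c hc g v P hP hT m hm hmed1 ε hε hε1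
  have hm2 := hmed θ L δ₁ hδ₁ (by linarith) hL c hc v P hP m hm hmed1 ε hε
  have hSm : MeasurableSet {σ : Vec d | hh σ m ∈ AnS τ m} := by
    have h2 : Measurable fun σ : Vec d => (m, hh σ m) := measurable_const.prodMk (th_hhm m)
    exact h2 (measurableSet_AnS τ)
  have hmain := th_main (θ := θ) HL.H p hτ5 hδ₁1 hε hc hP hT hSm (fun h hh' => hh'.2) hmed1
  have hl : ENNReal.ofReal (c₆ * τ ^ (-(2 * s))) ≤
      ∫⁻ σ in {σ : Vec d | 0 < dot m σ}, thSd (AnS τ m) γ b ε m σ ∂(surf d) :=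
    hlow τ hτ hτ3 m hm ε hε hε1
  exact th_fin hc hK₃ hK₁ hc₆ hL hτ hτ6 hl hmain hm2

end Pool.Agent.H67.NW
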