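import Pool.Agent.H67.NW.TbW
import Pool.Agent.H48.PL.RegR
import Pool.Agent.H48.PL.FastM
import Pool.Agent.H82.CM.CombG

/-!
# Block O of P-WIDE, module PertW: the library bounds for the perturbed comparison function `TbP p c v P`

As Pool/Agent/H48/PL/Pert.lean, with `GMg_PW` in place of `GMg_touch`.
-/

set_option autoImplicit false

open MeasureTheory Set Filter Topology Pool.Agent.H25.Kin Pool.Agent.H82.BK Pool.Agent.H82.CM
open Pool.Agent.H48.PL Pool.Agent.H48.PW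
open scoped ENNReal

namespace Pool.Agent.H67.NW

variable {d : ℕ} {γ s β C Ca cb : ℝ} {b : ℝ → ℝ}

lemma GMg_le (H : Hyp d γ s b C Ca) {g G : Vec d → ℝ} (h : ∀ u, g u ≤ G u) (S : Set (Vec d × Vec d))
    (v m : Vec d) {ε : ℝ} (hε : 0 < ε) : GMg γ b ε g S v m ≤ GMg γ b ε G S v m := by
  unfold GMg
  apply lintegral_mono_ae
  filter_upwards [ae_restrict_of_ae surf_ae, ae_restrict_mem (measurableSet_half m)] with σ hσ hd
  have hK := fast_Kn0 (γ := γ) H.bd hε hσ hd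
  split_ifs
  · exact ENNReal.ofReal_le_ofReal (mul_le_mul_of_nonneg_left (h _) hK)
  · exact le_rfl

private lemma ge_K (H : Hyp d γ s b C Ca) {m σ : Vec d} {ε : ℝ} (hε : 0 < ε) (hσ : nsq σ = 1)
    (hd : 0 < dot m σ) : 0 ≤ Kn d γ (fun x => bt b ε (-x)) (co m σ) := by
  have h1 := co_pos hd
  have h2 := co_le_one (m := m) hσ
  have h3 : 0 ≤ bt b ε (-(2 * co m σ ^ 2 - 1)) := bt_nonneg H.bd hε (by nlinarith) (by nlinarith)
  have h4 : 0 ≤ co m σ ^ (-2 - γ) := Real.rpow_nonneg h1.le _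
  unfold Kn
  positivity

lemma GEg_le (H : Hyp d γ s b C Ca) {g G : Vec d → ℝ} (h : ∀ u, g u ≤ G u) (S : Set (Vec d × Vec d))
    (v m : Vec d) {ε : ℝ} (hε : 0 < ε) : GEg γ b ε g S v m ≤ GEg γ b ε G S v m := by
  unfold GEg
  apply lintegral_mono_ae
  filter_upwards [ae_restrict_of_ae surf_ae, ae_restrict_mem (measurableSet_half m)] with σ hσ hd
  have hK := ge_K H hε hσ hd
  split_ifs
  · exact le_rfl
  · exact ENNReal.ofReal_le_ofReal (mul_le_mul_of_nonneg_left (h _) hK)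

/-- the exceptional gain at `2 Tb` -/
private lemma GEg_two (H : Hyp d γ s b C Ca) {p : ℕ} {c : ℝ} (hc : 0 ≤ c) (S : Set (Vec d × Vec d))
    (v m : Vec d) {ε : ℝ} (hε : 0 < ε) :
    GEg γ b ε (fun u => 2 * Tb p c v u) S v m ≤ ENNReal.ofReal 2 * GEg γ b ε (Tb p c v) S v m := by
  unfold GEg
  rw [← lintegral_const_mul' _ _ ENNReal.ofReal_ne_top]
  apply lintegral_mono_ae
  filter_upwards [ae_restrict_of_ae surf_ae, ae_restrict_mem (measurableSet_half m)] with σ hσ hd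
  have hK := ge_K H hε hσ hd
  split_ifs
  · simp
  · rw [← ENNReal.ofReal_mul (by norm_num)]
    exact ENNReal.ofReal_le_ofReal (le_of_eq (by ring))

private lemma TbP_le_two {p : ℕ} {δ c : ℝ} {v : Vec d} {P : Vec d → ℝ} (hP : PCond δ β v P) (hδ : δ ≤ 1)
    (hc : 0 ≤ c) (u : Vec d) : TbP p c v P u ≤ 2 * Tb p c v u := by
  have h1 := (abs_le.1 (hP.bd u)).2
  have h2 := Tb_nonneg (p := p) hc v u
  unfold TbP
  nlinarith

/-- the main part is at most the one of BK -/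
private lemma pert_GM (γ : ℝ) (b : ℝ → ℝ) (ε : ℝ) (g : Vec d → ℝ) (θ L : ℝ) (v m : Vec d) :
    GMg γ b ε g (RegS θ L v) v m ≤ GM γ b ε g v m := by
  unfold GMg GM
  refine lintegral_mono fun σ => ?_
  dsimp only
  by_cases h : (v - m, v + hh σ m) ∈ RegS θ L v
  · have h1 : MainR v (hh σ m) := by
      intro hc
      apply h.1
      refine ⟨hc.1, ?_⟩
      change (1 + nsq v) / 4 ≤ nsq (v + hh σ m - v)
      rw [add_sub_cancel_left]
      exact hc.2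
    rw [if_pos h, if_pos h1]
  · rw [if_neg h]
    exact zero_le

private lemma pert_K {p : ℕ} {δ₁ x : ℝ} (hδ : 0 ≤ δ₁) (hδ1 : δ₁ ≤ 1) (hx : 0 ≤ x) {A : ℝ≥0∞}
    (hA : A ≤ ENNReal.ofReal x) : ENNReal.ofReal (KP p * δ₁) * A ≤ ENNReal.ofReal (KP p * x) := by
  have hK := KP_pos p
  calc ENNReal.ofReal (KP p * δ₁) * A ≤ ENNReal.ofReal (KP p * δ₁) * ENNReal.ofReal x :=
        mul_le_mul_right hA _
    _ = ENNReal.ofReal (KP p * δ₁ * x) := (ENNReal.ofReal_mul (by positivity)).symm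
    _ ≤ _ := by
        refine ENNReal.ofReal_le_ofReal ?_
        have h1 : KP p * δ₁ ≤ KP p := by nlinarith
        exact mul_le_mul_of_nonneg_right h1 hx

theorem exc_PW (H : Hyp d γ s b C Ca) {p : ℕ} (hp : (d : ℝ) + γ + 4 ≤ 2 * p) {θ : ℝ}
    (hθ : 0 < θ) :
    ∃ K : ℝ, 0 ≤ K ∧ ∀ L : ℝ, 1 ≤ L → ∀ δ₁ : ℝ, δ₁ ≤ 1 → ∀ c : ℝ, 0 ≤ c →
      ∀ (v : Vec d) (P : Vec d → ℝ), PCond δ₁ β v P → ∀ m : Vec d, ∀ ε > 0,
      GEg γ b ε (TbP p c v P) (RegS θ L v) v m ≤ ENNReal.ofReal (K * c) := by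
  obtain ⟨K₀, hK₀, h⟩ := exc_boundg H hp hθ
  refine ⟨2 * K₀, by positivity, fun L hL δ₁ hδ1 c hc v P hP m ε hε => ?_⟩
  have h1 := GEg_le H (TbP_le_two (p := p) hP hδ1 hc) (RegS θ L v) v m hε
  have h0 := GEg_two H (p := p) hc (RegS θ L v) v m hε
  have h2 := h L hL (Tb p c v) (Tb_nonneg hc v) v (fun u => (Tb_eq p c v u).le) m ε hε
  rw [Tb_self] at h2
  refine h1.trans (h0.trans ((mul_le_mul_right h2 _).trans (le_of_eq ?_)))
  rw [← ENNReal.ofReal_mul (by norm_num)]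
  congr 1; ring

theorem med_PW (H : Hyp d γ s b C Ca) (h1 : 2 * s < β) (ha1 : β ≤ 1) (p : ℕ) :
    ∃ K : ℝ, 0 ≤ K ∧ ∀ (θ L δ₁ : ℝ), 0 ≤ δ₁ → δ₁ ≤ 1 → ∀ c : ℝ, 0 ≤ c →
      ∀ (v : Vec d) (P : Vec d → ℝ), PCond δ₁ β v P → ∀ m : Vec d, m ≠ 0 → ∀ ε > 0,
      GMg γ b ε (TbP p c v P) (RegS θ L v) v m ≤ ENNReal.ofReal c * BB b ε (dir m) +
        ENNReal.ofReal (K * c * (1 + nsq m / (1 + nsq v)) ^ s) := by
  obtain ⟨K₁, hK₁, hmain⟩ := main_bound H p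
  obtain ⟨K₂, hK₂, hreg⟩ := reg_rem H h1 ha1 p
  have hs := H.hs
  have hKP := KP_pos p
  refine ⟨K₁ + KP p * K₂, by positivity, fun θ L δ₁ hδ hδ1 c hc v P hP m hm ε hε => ?_⟩
  have hQ : 0 ≤ nsq m / (1 + nsq v) := by
    have h1 := sq_nonneg' m
    have h2 := sq_nonneg' v
    positivity
  have e1 := GMg_PW (p := p) H (by linarith) ha1 hδ1 hc hP θ L hm hε
  have e2 := hmain (Tb p c v) (Tb_meas p c v) (Tb_nonneg hc v) v
    (fun u => (Tb_eq p c v u).le) m hm ε hε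
  rw [Tb_self] at e2
  have e3 := hreg θ L c hc v m hm ε hε
  have e4 := pert_K (p := p) hδ hδ1 (by positivity) e3
  refine e1.trans ((add_le_add ((pert_GM γ b ε _ θ L v m).trans e2) e4).trans ?_)
  rw [add_assoc, ← ENNReal.ofReal_add (by positivity) (by positivity)]
  refine add_le_add_right (ENNReal.ofReal_le_ofReal ?_) _
  have h5 : (nsq m / (1 + nsq v)) ^ s ≤ (1 + nsq m / (1 + nsq v)) ^ s :=
    Real.rpow_le_rpow hQ (by linarith) hs.le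
  have h6 := mul_le_mul_of_nonneg_left h5 (mul_nonneg (mul_nonneg hKP.le hK₂) hc)
  linarith

theorem slow_PW (HL : HypL d γ s b C Ca cb) (h1 : 2 * s < β) (ha1 : β ≤ 1) {p : ℕ}
    (hp : (d : ℝ) + γ + 4 ≤ 2 * p) : ∃ δ > 0, δ ≤ 1 ∧ ∃ a₀ : ℝ, 1 ≤ a₀ ∧ ∃ κ : ℝ, 0 < κ ∧
    ∀ θ : ℝ, 0 < θ → ∃ δ₁ : ℝ, 0 < δ₁ ∧ δ₁ ≤ 1 / 2 ∧ ∀ L : ℝ, 1 ≤ L → ∀ c : ℝ, 0 ≤ c →
    ∀ (v : Vec d) (P : Vec d → ℝ), PCond δ₁ β v P →
      ∀ m : Vec d, m ≠ 0 → SlowR δ a₀ v (v - m) → ∀ ε : ℝ, 0 < ε → ε ≤ 1 / 64 →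
      GMg γ b ε (TbP p c v P) (RegS θ L v) v m + GEg γ b ε (TbP p c v P) (RegS θ L v) v m +
          ENNReal.ofReal (κ * c) ≤ ENNReal.ofReal c * BB b ε (dir m) := by
  have H := HL.H
  have hs := H.hs
  have hs1 := H.hs1
  have hKP := KP_pos p
  obtain ⟨δ, hδ, hδ1, a₀, ha₀, κ₀, hκ₀, hslow⟩ := slow_boundg HL hp
  obtain ⟨KR, hKR, hreg⟩ := reg_rem H h1 ha1 p
  refine ⟨δ, hδ, hδ1, a₀, ha₀, κ₀ / 2, by positivity, fun θ hθ => ?_⟩
  obtain ⟨K₀, hK₀, hexc⟩ := exc_boundg H hp hθ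
  refine ⟨min (1 / 2) (κ₀ / (2 * (4 * (KP p * KR) + K₀ + 1))), lt_min (by norm_num) (by positivity),
    min_le_left _ _, fun L hL c hc v P hP m hm hsl ε hε hε1 => ?_⟩
  set δ₁ := min (1 / 2) (κ₀ / (2 * (4 * (KP p * KR) + K₀ + 1))) with hδ₁
  have hδ₁0 : 0 ≤ δ₁ := le_min (by norm_num) (by positivity)
  have hδ₁1 : δ₁ ≤ 1 := (min_le_left _ _).trans (by norm_num)
  have hδ₁2 : δ₁ * (4 * (KP p * KR) + K₀) ≤ κ₀ / 2 := by
    have h2 : δ₁ * (2 * (4 * (KP p * KR) + K₀ + 1)) ≤ κ₀ := by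
      have := min_le_right (1 / 2) (κ₀ / (2 * (4 * (KP p * KR) + K₀ + 1)))
      rwa [← hδ₁, le_div_iff₀ (by positivity)] at this
    nlinarith
  have hv0 := sq_nonneg' v
  have ha : 0 < 1 + nsq v := by linarith
  have hQ0 : 0 ≤ nsq m / (1 + nsq v) := div_nonneg (sq_nonneg' m) ha.le
  have hQ : nsq m / (1 + nsq v) ≤ 4 := by
    rw [div_le_iff₀ ha]
    have h5 : nsq m ≤ 2 * nsq v + 2 * nsq (v - m) := by
      have h6 := nsq_par v (v - m)
      rw [sub_sub_cancel] at h6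
      have h7 := sq_nonneg' (v + (v - m))
      linarith
    have h8 := hsl.2
    have h9 : δ ^ 2 * (1 + nsq v) ≤ 1 * (1 + nsq v) :=
      mul_le_mul_of_nonneg_right (pow_le_one₀ hδ.le hδ1) ha.le
    linarith
  have hQs : (nsq m / (1 + nsq v)) ^ s ≤ 4 := by
    calc (nsq m / (1 + nsq v)) ^ s ≤ (4 : ℝ) ^ s := Real.rpow_le_rpow hQ0 hQ hs.le
      _ ≤ (4 : ℝ) ^ (1 : ℝ) := Real.rpow_le_rpow_of_exponent_le (by norm_num) hs1.le
      _ = 4 := Real.rpow_one _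
  set T := Tb p c v with hT
  have hTm : Measurable T := Tb_meas p c v
  have hT0 : ∀ u, 0 ≤ T u := Tb_nonneg hc v
  have hTt : ∀ u, T u * (1 + nsq u) ^ p ≤ T v * (1 + nsq v) ^ p := fun u => (Tb_eq p c v u).le
  have hTv : T v = c := Tb_self p c v
  have e1 := GMg_PW (p := p) H (by linarith) ha1 hδ₁1 hc hP θ L hm hε
  have e2 : GEg γ b ε (TbP p c v P) (RegS θ L v) v m ≤ GEg γ b ε T (RegS θ L v) v m +
      ENNReal.ofReal δ₁ * GEg γ b ε T (RegS θ L v) v m := by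
    have hpt : ∀ u, TbP p c v P u ≤ (1 + δ₁) * Tb p c v u := by
      intro u
      have h1 := (abs_le.1 (hP.bd u)).2
      have h2 := Tb_nonneg (p := p) hc v u
      unfold TbP
      nlinarith
    refine (GEg_le H hpt (RegS θ L v) v m hε).trans ?_
    have h3 : GEg γ b ε (fun u => (1 + δ₁) * Tb p c v u) (RegS θ L v) v m ≤
        ENNReal.ofReal (1 + δ₁) * GEg γ b ε T (RegS θ L v) v m := by
      unfold GEg
      rw [← lintegral_const_mul' _ _ ENNReal.ofReal_ne_top]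
      apply lintegral_mono_ae
      filter_upwards [ae_restrict_of_ae surf_ae, ae_restrict_mem (measurableSet_half m)] with σ hσ hd
      have hK := ge_K H hε hσ hd
      split_ifs
      · simp
      · rw [← ENNReal.ofReal_mul (by positivity)]
        exact ENNReal.ofReal_le_ofReal (le_of_eq (by rw [hT]; ring))
    refine h3.trans (le_of_eq ?_)
    rw [ENNReal.ofReal_add zero_le_one hδ₁0, ENNReal.ofReal_one, add_mul, one_mul]
  have e3 := hslow T hTm hT0 v hTt m hm hsl ε hε hε1 (RegS θ L v)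
  rw [hTv] at e3
  have e4 := hreg θ L c hc v m hm ε hε
  have e5 := hexc L hL T hT0 v hTt m ε hε
  rw [hTv] at e5
  rw [← hT] at e1
  have e6 : ENNReal.ofReal (KP p * δ₁) * GMg γ b ε (fun u => T u * mm β v u) (RegS θ L v) v m ≤
      ENNReal.ofReal (δ₁ * (4 * (KP p * KR)) * c) := by
    refine (mul_le_mul_right e4 _).trans ?_
    rw [← ENNReal.ofReal_mul (by positivity)]
    refine ENNReal.ofReal_le_ofReal ?_
    have := mul_le_mul_of_nonneg_left hQs (mul_nonneg (mul_nonneg hKP.le hδ₁0) (mul_nonneg hKR hc))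
    linarith
  have e7 : ENNReal.ofReal δ₁ * GEg γ b ε T (RegS θ L v) v m ≤ ENNReal.ofReal (δ₁ * K₀ * c) := by
    refine (mul_le_mul_right e5 _).trans ?_
    rw [← ENNReal.ofReal_mul hδ₁0, mul_assoc]
  calc GMg γ b ε (TbP p c v P) (RegS θ L v) v m + GEg γ b ε (TbP p c v P) (RegS θ L v) v m +
        ENNReal.ofReal (κ₀ / 2 * c)
      ≤ (GMg γ b ε T (RegS θ L v) v m + ENNReal.ofReal (δ₁ * (4 * (KP p * KR)) * c)) +
        (GEg γ b ε T (RegS θ L v) v m + ENNReal.ofReal (δ₁ * K₀ * c)) +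
        ENNReal.ofReal (κ₀ / 2 * c) := by
        gcongr
        · exact e1.trans (add_le_add_right e6 _)
        · exact e2.trans (add_le_add_right e7 _)
    _ = GMg γ b ε T (RegS θ L v) v m + GEg γ b ε T (RegS θ L v) v m +
        ENNReal.ofReal (δ₁ * (4 * (KP p * KR)) * c + δ₁ * K₀ * c + κ₀ / 2 * c) := by
        rw [ENNReal.ofReal_add (p := δ₁ * (4 * (KP p * KR)) * c + δ₁ * K₀ * c) (by positivity)
          (by positivity), ENNReal.ofReal_add (p := δ₁ * (4 * (KP p * KR)) * c) (by positivity)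
          (by positivity)]
        ring
    _ ≤ GMg γ b ε T (RegS θ L v) v m + GEg γ b ε T (RegS θ L v) v m +
        ENNReal.ofReal (κ₀ * c) := by
        refine add_le_add_right (ENNReal.ofReal_le_ofReal ?_) _
        have := mul_le_mul_of_nonneg_right hδ₁2 hc
        linarith
    _ ≤ _ := e3

theorem fast_PW (HL : HypL d γ s b C Ca cb) (h1 : 2 * s < β) (ha1 : β ≤ 1) (p : ℕ) :
    ∃ θ : ℝ, 0 < θ ∧ θ ≤ 1 / 4 ∧ ∀ K₂ : ℝ, 0 ≤ K₂ → ∃ L : ℝ, 1 ≤ L ∧ ∃ ε₀ : ℝ, 0 < ε₀ ∧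
      ∀ δ₁ : ℝ, 0 ≤ δ₁ → δ₁ ≤ 1 → ∀ c : ℝ, 0 ≤ c → ∀ (v : Vec d) (P : Vec d → ℝ), PCond δ₁ β v P →
      ∀ m : Vec d, m ≠ 0 → L * (1 + nsq v) < nsq (v - m) → ∀ ε : ℝ, 0 < ε → ε ≤ ε₀ →
      GMg γ b ε (TbP p c v P) (RegS θ L v) v m + ENNReal.ofReal (K₂ * c) ≤
        ENNReal.ofReal c * BB b ε (dir m) := by
  have H := HL.H
  have hs := H.hs
  have hKP := KP_pos p
  have hapos : 0 < β := by linarith
  obtain ⟨c₅, θ₀, hc₅, hθ₀, hθ₀4, hmar⟩ := fast_margin HL p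
  obtain ⟨KF', hKF', hrem⟩ := fast_rem H h1 ha1 p
  obtain ⟨KF, hKFd⟩ : ∃ KF : ℝ, KF = KP p * KF' := ⟨_, rfl⟩
  have hKF : 0 ≤ KF := by rw [hKFd]; positivity
  set θ := min θ₀ ((c₅ / (KF + 1)) ^ (2 / β)) with hθ
  have hθ0 : 0 < θ := lt_min hθ₀ (by positivity)
  have hθ4 : θ ≤ 1 / 4 := (min_le_left _ _).trans hθ₀4
  have hθ5 : KF * θ ^ (β / 2) ≤ c₅ := by
    have h2 : θ ^ (β / 2) ≤ ((c₅ / (KF + 1)) ^ (2 / β)) ^ (β / 2) :=
      Real.rpow_le_rpow hθ0.le (min_le_right _ _) (by positivity)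
    have h3 : ((c₅ / (KF + 1)) ^ (2 / β)) ^ (β / 2) = c₅ / (KF + 1) := by
      rw [← Real.rpow_mul (by positivity)]
      have : 2 / β * (β / 2) = 1 := by field_simp
      rw [this, Real.rpow_one]
    rw [h3, le_div_iff₀ (by positivity)] at h2
    have h4 : 0 ≤ θ ^ (β / 2) := by positivity
    nlinarith
  refine ⟨θ, hθ0, hθ4, fun K₂ hK₂ => ?_⟩
  obtain ⟨L, hL, ε₀, hε₀, hm'⟩ := hmar θ hθ0 (min_le_left _ _) (K₂ + KF) (by positivity)
  refine ⟨L, hL, ε₀, hε₀, fun δ₁ hδ hδ1 c hc v P hP m hm hfa ε hε hε1 => ?_⟩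
  have e1 := GMg_PW (p := p) H hapos.le ha1 hδ1 hc hP θ L hm hε
  have e2 := hm' (Tb p c v) (Tb_meas p c v) (Tb_nonneg hc v) v
    (fun u => (Tb_eq p c v u).le) m hm hfa ε hε hε1
  rw [Tb_self] at e2
  have e3 := hrem θ hθ0 hθ4 L hL c hc v m hm hfa ε hε
  set u₁ := max (θ / (nsq m / (1 + nsq v))) ε with hu₁
  have hu₁0 : 0 < u₁ := lt_max_of_lt_right hε
  have hup : 0 ≤ u₁ ^ (-s) := Real.rpow_nonneg hu₁0.le _
  have hth : 0 ≤ θ ^ (β / 2) := by positivity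
  have e4 := pert_K (p := p) hδ hδ1 (by positivity) e3
  have e5 : KP p * (KF' * c * (θ ^ (β / 2) * u₁ ^ (-s) + 1)) =
      KF * c * (θ ^ (β / 2) * u₁ ^ (-s) + 1) := by rw [hKFd]; ring
  rw [e5] at e4
  calc GMg γ b ε (TbP p c v P) (RegS θ L v) v m + ENNReal.ofReal (K₂ * c)
      ≤ (GMg γ b ε (Tb p c v) (RegS θ L v) v m +
          ENNReal.ofReal (KF * c * (θ ^ (β / 2) * u₁ ^ (-s) + 1))) +
          ENNReal.ofReal (K₂ * c) := by
        gcongr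
        exact e1.trans (add_le_add_right e4 _)
    _ ≤ (GMg γ b ε (Tb p c v) (RegS θ L v) v m +
          ENNReal.ofReal (KF * c + c₅ * c * u₁ ^ (-s))) +
          ENNReal.ofReal (K₂ * c) := by
        gcongr
        have := mul_le_mul_of_nonneg_right hθ5 (mul_nonneg hc hup)
        nlinarith
    _ = GMg γ b ε (Tb p c v) (RegS θ L v) v m + ENNReal.ofReal ((K₂ + KF) * c) +
          ENNReal.ofReal (c₅ * c * u₁ ^ (-s)) := by
        rw [ENNReal.ofReal_add (by positivity) (by positivity), add_mul,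
          ENNReal.ofReal_add (by positivity) (by positivity)]
        ring
    _ ≤ _ := e2

end Pool.Agent.H67.NW
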