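import Pool.Agent.H48.PW.Defs
import Pool.Agent.H48.PL.TbL
import Pool.Agent.H82.CM.Fast
import Pool.Agent.H48.PL.FastR

/-!
# Block O of P-WIDE, module TbW: the gain integrals under the one-sided touching condition

`PCond δ β v P`: the conditions on the relative change `P` of the barrier. `GMg_PW`: on `|h|² < A/4` (`A = 1+nsq v`, there `RegS` is radial) the
azimuthal bound is used with `T(v+h) P = c P + (T-c) P`, `|T-c| ≤ 10 p 4^p c |h|/A^(1/2)`; on `|h|² ≥ A/4` one has `mm ≥ 1/2`.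
-/

set_option autoImplicit false

open MeasureTheory Set Filter Topology Pool.Agent.H25.Kin Pool.Agent.H82.BK Pool.Agent.H82.CM
open Pool.Agent.H48.PL Pool.Agent.H48.PW
open scoped ENNReal

namespace Pool.Agent.H67.NW

variable {d : ℕ} {γ s β C Ca : ℝ} {b : ℝ → ℝ} {p : ℕ}

/-- the conditions on the relative change of the barrier -/
structure PCond (δ β : ℝ) (v : Vec d) (P : Vec d → ℝ) : Prop where
  meas : Measurable P
  bd : ∀ u, |P u| ≤ δ
  az : ∀ m : Vec d, m ≠ 0 → ∀ k : ℝ → ℝ, RadK v m k →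
      ∫ σ in {σ : Vec d | 0 < dot m σ}, k (co m σ) * P (v + hh σ m) ∂(surf d) ≤
        δ * ∫ σ in {σ : Vec d | 0 < dot m σ}, k (co m σ) * mm β v (v + hh σ m) ∂(surf d)

/-- the constant of the perturbation -/
noncomputable def KP (p : ℕ) : ℝ := (1 + 10 * p * 4 ^ p) * 4 ^ p + 2

lemma KP_pos (p : ℕ) : 0 < KP p := by unfold KP; positivity

/-- the perturbed comparison function -/
noncomputable def TbP (p : ℕ) (c : ℝ) (v : Vec d) (P : Vec d → ℝ) (u : Vec d) : ℝ :=
  Tb p c v u * (1 + P u)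

lemma TbP_meas {P : Vec d → ℝ} (hP : Measurable P) (p : ℕ) (c : ℝ) (v : Vec d) :
    Measurable (TbP p c v P) := (Tb_meas p c v).mul (measurable_const.add hP)

lemma TbP_nonneg {δ c : ℝ} {v : Vec d} {P : Vec d → ℝ} (h : PCond δ β v P) (hδ : δ ≤ 1) (hc : 0 ≤ c)
    (u : Vec d) : 0 ≤ TbP p c v P u := by
  have h1 := (abs_le.1 (h.bd u)).1
  exact mul_nonneg (Tb_nonneg hc v u) (by linarith)

lemma TbP_half {δ c : ℝ} {v : Vec d} {P : Vec d → ℝ} (h : PCond δ β v P) (hδ : δ ≤ 1 / 2) (hc : 0 ≤ c)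
    (u : Vec d) : Tb p c v u / 2 ≤ TbP p c v P u := by
  have h1 := (abs_le.1 (h.bd u)).1
  have h2 := Tb_nonneg (p := p) hc v u
  unfold TbP
  nlinarith

private lemma tb_pos (v : Vec d) : 0 < 1 + nsq v := by
  have := sq_nonneg' v
  linarith

private lemma tw_kn_nonneg {β : ℝ → ℝ} (hβ : ∀ x, -1 ≤ x → x ≤ 1 → 0 ≤ β x) {c : ℝ}
    (h1 : 0 < c) (h2 : c ≤ 1) : 0 ≤ Kn d γ β c := by
  have h3 : 0 ≤ β (2 * c ^ 2 - 1) := hβ _ (by nlinarith) (by nlinarith)
  have h4 : 0 ≤ c ^ (-2 - γ) := Real.rpow_nonneg h1.le _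
  unfold Kn
  positivity

private lemma tw_p (m : Vec d) : Measurable fun σ : Vec d => ((m, σ) : Vec d × Vec d) :=
  measurable_const.prodMk measurable_id

private lemma tw_co (m : Vec d) : Measurable fun σ : Vec d => co m σ := by
  have h1 : Measurable fun q : Vec d × Vec d => co q.1 q.2 := measurable_co
  have h2 := h1.comp (tw_p m)
  exact h2

private lemma tw_h (m : Vec d) : Measurable fun σ : Vec d => hh σ m := by
  have h1 : Measurable fun q : Vec d × Vec d => hh q.2 q.1 := measurable_hh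
  have h2 := h1.comp (tw_p m)
  exact h2

private lemma tw_hh (v m : Vec d) : Measurable fun σ : Vec d => v + hh σ m := by
  have h2 : Measurable fun x : Vec d => v + x := (continuous_const.add continuous_id).measurable
  have h3 := h2.comp (tw_h m)
  exact h3

private lemma tw_Kn (γ : ℝ) {β : ℝ → ℝ} (hβ : Measurable β) : Measurable fun c : ℝ => Kn d γ β c := by
  unfold Kn
  have e1 : Measurable fun c : ℝ => c ^ (-2 - γ) := measurable_id.pow_const _
  have e2 : Measurable fun c : ℝ => 2 * c ^ 2 - 1 := by fun_prop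
  exact (measurable_const.mul e1).mul (hβ.comp e2)

/-- the near range, `|h|² < A/4` -/
private def nr (v m : Vec d) (c : ℝ) : Prop := nsq m * (1 - c ^ 2) < 1 / 4 * (1 + nsq v) * c ^ 2

/-- not excluded by the second clause of `RegS` -/
private def ok (θ L : ℝ) (v m : Vec d) (c : ℝ) : Prop :=
  ¬ (L * (1 + nsq v) < nsq (v - m) ∧ θ * (1 + nsq v) ≤ nsq m * ((1 - c ^ 2) / c ^ 2))

open Classical in
private noncomputable def kk (θ L γ : ℝ) (b : ℝ → ℝ) (ε : ℝ) (v m : Vec d) (c : ℝ) : ℝ :=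
  if (0 < c ∧ c ≤ 1) ∧ nr v m c ∧ ok θ L v m c then Kn d γ (bt b ε) c else 0

private lemma kk_rad (H : Hyp d γ s b C Ca) (θ L : ℝ) {ε : ℝ} (hε : 0 < ε) (v m : Vec d) :
    RadK v m (kk θ L γ b ε v m) := by
  classical
  have hbt := measurable_bt H.bm ε
  have hβ0 := H.β0
  refine ⟨?_, ?_, ?_, ?_⟩
  · refine Measurable.ite ?_ (tw_Kn γ hbt) measurable_const
    have h1 : MeasurableSet {c : ℝ | 0 < c ∧ c ≤ 1} := by
      have : {c : ℝ | 0 < c ∧ c ≤ 1} = Ioc 0 1 := rfl
      rw [this]; exact measurableSet_Ioc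
    have h2 : MeasurableSet {c : ℝ | nr v m c} := by
      unfold nr
      exact measurableSet_lt (by fun_prop) (by fun_prop)
    have h3 : MeasurableSet {c : ℝ | ok θ L v m c} := by
      have e1 : {c : ℝ | ok θ L v m c} = {c : ℝ | L * (1 + nsq v) < nsq (v - m) ∧
          θ * (1 + nsq v) ≤ nsq m * ((1 - c ^ 2) / c ^ 2)}ᶜ := rfl
      rw [e1]
      have h4 : Measurable fun c : ℝ => nsq m * ((1 - c ^ 2) / c ^ 2) := by fun_prop
      have h5 : MeasurableSet {c : ℝ | θ * (1 + nsq v) ≤ nsq m * ((1 - c ^ 2) / c ^ 2)} :=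
        measurableSet_le measurable_const h4
      exact ((MeasurableSet.const (L * (1 + nsq v) < nsq (v - m))).inter h5).compl
    exact h1.inter (h2.inter h3)
  · intro c
    unfold kk
    split_ifs with h
    · exact tw_kn_nonneg (fun x h1 h2 => bt_nonneg H.bd hε h1 h2) h.1.1 h.1.2
    · exact le_rfl
  · have hC0 := H.bd.1
    set β' : ℝ := ((d : ℝ) - 1) / 2 + s with hβ'
    set e : ℝ := -2 - γ with he
    refine ⟨2 ^ (d - 1) * (1 + (1 / 2) ^ e) * (2 * (C * ε ^ (-β'))), fun c => ?_⟩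
    have hε1 : 0 < ε ^ (-β') := Real.rpow_pos_of_pos hε _
    have hb1 : 0 ≤ C * ε ^ (-β') := by positivity
    have he1 : (0 : ℝ) ≤ (1 / 2) ^ e := by positivity
    unfold kk
    split_ifs with h
    · obtain ⟨⟨hc0, hc1⟩, -, -⟩ := h
      unfold Kn
      by_cases hx : 2 * c ^ 2 - 1 < 0
      · rw [bt_neg hx, mul_zero]; positivity
      push Not at hx
      have hc2 : 1 / 2 ≤ c := by nlinarith
      have h4 : c ^ e ≤ 1 + (1 / 2) ^ e := by
        rcases le_total 0 e with h5 | h5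
        · have := Real.rpow_le_one hc0.le hc1 h5
          linarith
        · have := Real.rpow_le_rpow_of_nonpos (by norm_num : (0 : ℝ) < 1 / 2) hc2 h5
          linarith
      have h5 : ∀ x : ℝ, -1 ≤ x → x ≤ 1 → bcut b ε x ≤ C * ε ^ (-β') := by
        intro x hx1 hx2
        unfold bcut
        split_ifs with h6
        · refine (H.bd.2 x hx1 (by linarith)).2.trans ?_
          refine mul_le_mul_of_nonneg_left ?_ hC0
          exact Real.rpow_le_rpow_of_nonpos hε (by linarith) (by linarith)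
        · exact hb1
      have h6 : bt b ε (2 * c ^ 2 - 1) ≤ 2 * (C * ε ^ (-β')) := by
        have hx2 : 2 * c ^ 2 - 1 ≤ 1 := by nlinarith
        have h7 := h5 (2 * c ^ 2 - 1) (by linarith) hx2
        have h8 := h5 (-(2 * c ^ 2 - 1)) (by linarith) (by linarith)
        unfold bt
        split_ifs <;> linarith
      have h7 : 0 ≤ bt b ε (2 * c ^ 2 - 1) :=
        bt_nonneg H.bd hε (by linarith) (by nlinarith)
      have h8 : 0 ≤ c ^ e := Real.rpow_nonneg hc0.le _
      have h9 : 2 ^ (d - 1) * c ^ e ≤ 2 ^ (d - 1) * (1 + (1 / 2) ^ e) :=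
        mul_le_mul_of_nonneg_left h4 (by positivity)
      exact mul_le_mul h9 h6 h7 (by positivity)
    · positivity
  · intro c hc
    unfold kk at hc
    split_ifs at hc with h
    · exact ⟨h.1.1, h.2.1.le⟩
    · exact absurd rfl hc

private lemma tw_pow {y : ℝ} (hy : 0 ≤ y) (hy4 : y ≤ 4) (p : ℕ) : |y ^ p - 1| ≤ p * 4 ^ p * |y - 1| := by
  induction p with
  | zero => simp
  | succ n ih =>
    have e1 : y ^ (n + 1) - 1 = y * (y ^ n - 1) + (y - 1) := by ring
    have h0 := abs_nonneg (y - 1)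
    have h1 : |y * (y ^ n - 1)| ≤ 4 * (n * 4 ^ n * |y - 1|) := by
      rw [abs_mul, abs_of_nonneg hy]
      exact mul_le_mul hy4 ih (abs_nonneg _) (by norm_num)
    rw [e1]
    refine (abs_add_le _ _).trans ((add_le_add_left h1 _).trans ?_)
    push_cast
    have h2 : (1 : ℝ) ≤ 4 ^ (n + 1) := one_le_pow₀ (by norm_num)
    have h3 : |y - 1| ≤ 4 ^ (n + 1) * |y - 1| := by nlinarith
    have h4 : 4 * (n * 4 ^ n * |y - 1|) = n * 4 ^ (n + 1) * |y - 1| := by ring
    rw [h4]
    nlinarith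

/-- `|T(v+h) - c| ≤ 10 p 4^p c (|h|²/A)^(1/2)` for `|h|² ≤ A/4` -/
private lemma tw_lip {c : ℝ} (hc : 0 ≤ c) {v h : Vec d} (hh4 : nsq h ≤ 1 / 4 * (1 + nsq v)) (p : ℕ) :
    |Tb p c v (v + h) - c| ≤ 10 * p * 4 ^ p * c * Real.sqrt (nsq h / (1 + nsq v)) := by
  have hA := tb_pos v
  have hU := tb_pos (v + h)
  have hn := sq_nonneg' h
  have hv := sq_nonneg' v
  set A := 1 + nsq v with hAd
  set X := nsq h / A with hX
  have hX0 : 0 ≤ X := by positivity
  have hX4 : X ≤ 1 / 4 := by rw [hX, div_le_iff₀ hA]; exact hh4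
  set r := Real.sqrt X with hr
  have hr0 : 0 ≤ r := Real.sqrt_nonneg _
  have hr2 : r ^ 2 = X := Real.sq_sqrt hX0
  have hr1 : r ≤ 1 / 2 := by nlinarith
  have hnh : nsq h = A * r ^ 2 := by rw [hr2, hX]; field_simp
  have hvh : |dot v h| ≤ A * r := by
    have h1 := dot_sq_le v h
    have h2 : dot v h ^ 2 ≤ (A * r) ^ 2 := by
      calc dot v h ^ 2 ≤ nsq v * nsq h := h1
        _ ≤ A * nsq h := mul_le_mul_of_nonneg_right (by linarith) hn
        _ = (A * r) ^ 2 := by rw [hnh]; ring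
    exact abs_le_of_sq_le_sq h2 (by positivity)
  have e1 : 1 + nsq (v + h) = A + 2 * dot v h + nsq h := by
    rw [nsq_add, hAd]; ring
  have h2 : |A - (1 + nsq (v + h))| ≤ 5 / 2 * A * r := by
    rw [e1]
    have h3 : A - (A + 2 * dot v h + nsq h) = -(2 * dot v h + nsq h) := by ring
    rw [h3, abs_neg]
    refine (abs_add_le _ _).trans ?_
    rw [abs_mul, abs_two, abs_of_nonneg hn, hnh]
    nlinarith [mul_nonneg hA.le hr0, mul_nonneg (mul_nonneg hA.le hr0) (by linarith : 0 ≤ 1 / 2 - r)]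
  have h3 : A / 4 ≤ 1 + nsq (v + h) := by
    rw [e1]
    have h4 := (abs_le.1 hvh).1
    rw [hnh]
    nlinarith [mul_nonneg hA.le (sq_nonneg (r - 1 / 2)), mul_nonneg hA.le hr0,
      mul_nonneg hA.le (by linarith : 0 ≤ 1 / 2 - r)]
  set y := A / (1 + nsq (v + h)) with hy
  have hy0 : 0 ≤ y := by positivity
  have hy4 : y ≤ 4 := by rw [hy, div_le_iff₀ hU]; linarith
  have hy1 : |y - 1| ≤ 10 * r := by
    have e2 : y - 1 = (A - (1 + nsq (v + h))) / (1 + nsq (v + h)) := by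
      rw [hy]; field_simp
    rw [e2, abs_div, abs_of_pos hU, div_le_iff₀ hU]
    calc |A - (1 + nsq (v + h))| ≤ 5 / 2 * A * r := h2
      _ = 10 * r * (A / 4) := by ring
      _ ≤ 10 * r * (1 + nsq (v + h)) := mul_le_mul_of_nonneg_left h3 (by positivity)
  have e3 : Tb p c v (v + h) - c = c * (y ^ p - 1) := by
    unfold Tb
    rw [← hAd, ← hy]
    ring
  rw [e3, abs_mul, abs_of_nonneg hc]
  have h5 := tw_pow hy0 hy4 p
  have h6 : |y ^ p - 1| ≤ p * 4 ^ p * (10 * r) :=
    h5.trans (mul_le_mul_of_nonneg_left hy1 (by positivity))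
  calc c * |y ^ p - 1| ≤ c * (p * 4 ^ p * (10 * r)) := mul_le_mul_of_nonneg_left h6 hc
    _ = _ := by ring

private lemma tw_mm {v u : Vec d} (hβ1 : β ≤ 1) (h : nsq (u - v) ≤ 1 / 4 * (1 + nsq v)) :
    Real.sqrt (nsq (u - v) / (1 + nsq v)) ≤ mm β v u := by
  have hA := tb_pos v
  have hn := sq_nonneg' (u - v)
  set X := nsq (u - v) / (1 + nsq v) with hX
  have hX0 : 0 ≤ X := by positivity
  have hX4 : X ≤ 1 / 4 := by rw [hX, div_le_iff₀ hA]; exact h
  unfold mm
  rw [← hX, min_eq_right (by linarith), Real.sqrt_eq_rpow]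
  rcases hX0.eq_or_lt with h0 | h0
  · rw [← h0, Real.zero_rpow (by norm_num)]
    exact Real.rpow_nonneg le_rfl _
  · exact Real.rpow_le_rpow_of_exponent_ge h0 (by linarith) (by linarith)

private lemma tw_far {v u : Vec d} (hβ0 : 0 ≤ β) (hβ1 : β ≤ 1) (h : 1 / 4 * (1 + nsq v) ≤ nsq (u - v)) :
    1 / 2 ≤ mm β v u := by
  have hA := tb_pos v
  set X := nsq (u - v) / (1 + nsq v) with hX
  have hX4 : 1 / 4 ≤ X := by rw [hX, le_div_iff₀ hA]; exact h
  unfold mm
  rw [← hX]
  have h1 : (1 / 4 : ℝ) ≤ min 1 X := le_min (by norm_num) hX4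
  calc (1 / 2 : ℝ) = (1 / 4) ^ (1 / 2 : ℝ) := by
        rw [← Real.sqrt_eq_rpow]
        rw [show (1 / 4 : ℝ) = (1 / 2) ^ 2 by norm_num, Real.sqrt_sq (by norm_num)]
    _ ≤ (1 / 4) ^ (β / 2) :=
        Real.rpow_le_rpow_of_exponent_ge (by norm_num) (by norm_num) (by linarith)
    _ ≤ _ := Real.rpow_le_rpow (by norm_num) h1 (by linarith)


/-- the membership in `RegS` is radial in the near range -/
private lemma tw_mem {θ L : ℝ} {v m σ : Vec d} (hσ : nsq σ = 1) (hm : 0 < dot m σ) (hn : nr v m (co m σ)) :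
    (v - m, v + hh σ m) ∈ RegS θ L v ↔ ok θ L v m (co m σ) := by
  have hc := co_pos hm
  have e1 := nsq_hh hσ hm
  have h1 : nsq (hh σ m) < (1 + nsq v) / 4 := by
    rw [e1, ← mul_div_assoc, div_lt_iff₀ (by positivity)]
    have h2 : nsq m * (1 - co m σ ^ 2) < 1 / 4 * (1 + nsq v) * co m σ ^ 2 := hn
    linarith
  unfold RegS ok
  simp only [mem_ofPred_eq, add_sub_cancel_left]
  rw [e1] at h1 ⊢
  constructor
  · exact fun h => h.2
  · exact fun h => ⟨fun h2 => absurd h1 (not_lt.2 h2.2), h⟩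

open Classical in
private noncomputable def fpt (θ L γ : ℝ) (b : ℝ → ℝ) (ε : ℝ) (G : Vec d → ℝ) (v m σ : Vec d) : ℝ≥0∞ :=
  if (v - m, v + hh σ m) ∈ RegS θ L v ∧ ¬ nr v m (co m σ) then
    ENNReal.ofReal (Kn d γ (bt b ε) (co m σ) * G (v + hh σ m)) else 0

private lemma tw_split (θ L : ℝ) (G : Vec d → ℝ) {ε : ℝ} {v m σ : Vec d}
    (hσ : nsq σ = 1) (hm : 0 < dot m σ) [Decidable ((v - m, v + hh σ m) ∈ RegS θ L v)] :
    (if (v - m, v + hh σ m) ∈ RegS θ L v then
      ENNReal.ofReal (Kn d γ (bt b ε) (co m σ) * G (v + hh σ m)) else 0) =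
    ENNReal.ofReal (kk θ L γ b ε v m (co m σ) * G (v + hh σ m)) + fpt θ L γ b ε G v m σ := by
  classical
  have hc := co_pos hm
  have hc1 := co_le_one (m := m) hσ
  by_cases hn : nr v m (co m σ)
  · have h1 := tw_mem (θ := θ) (L := L) hσ hm hn
    have h3 : fpt θ L γ b ε G v m σ = 0 := by
      unfold fpt
      exact if_neg (fun h => h.2 hn)
    by_cases h2 : (v - m, v + hh σ m) ∈ RegS θ L v
    · have h4 : kk θ L γ b ε v m (co m σ) = Kn d γ (bt b ε) (co m σ) := by
        unfold kk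
        exact if_pos ⟨⟨hc, hc1⟩, hn, h1.1 h2⟩
      rw [if_pos h2, h3, h4, add_zero]
    · have h4 : kk θ L γ b ε v m (co m σ) = 0 := by
        unfold kk
        exact if_neg (fun h => h2 (h1.2 h.2.2))
      rw [if_neg h2, h3, h4, zero_mul, ENNReal.ofReal_zero, add_zero]
  · have h4 : kk θ L γ b ε v m (co m σ) = 0 := by
      unfold kk
      exact if_neg (fun h => hn h.2.1)
    rw [h4, zero_mul, ENNReal.ofReal_zero, zero_add]
    by_cases h2 : (v - m, v + hh σ m) ∈ RegS θ L v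
    · have h3 : fpt θ L γ b ε G v m σ = ENNReal.ofReal (Kn d γ (bt b ε) (co m σ) * G (v + hh σ m)) := by
        unfold fpt
        exact if_pos ⟨h2, hn⟩
      rw [if_pos h2, h3]
    · have h3 : fpt θ L γ b ε G v m σ = 0 := by
        unfold fpt
        exact if_neg (fun h => h2 h.1)
      rw [if_neg h2, h3]

private lemma tw_nm (H : Hyp d γ s b C Ca) (θ L : ℝ) {ε : ℝ} (hε : 0 < ε) {G : Vec d → ℝ}
    (hG : Measurable G) (v m : Vec d) :
    Measurable fun σ : Vec d => kk θ L γ b ε v m (co m σ) * G (v + hh σ m) :=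
  ((kk_rad H θ L hε v m).meas.comp (tw_co m)).mul (hG.comp (tw_hh v m))

/-- splitting of the regular gain -/
private lemma tw_GM (H : Hyp d γ s b C Ca) (θ L : ℝ) {ε : ℝ} (hε : 0 < ε) {G : Vec d → ℝ}
    (hG : Measurable G) (v m : Vec d) :
    GMg γ b ε G (RegS θ L v) v m =
      (∫⁻ σ in {σ : Vec d | 0 < dot m σ}, ENNReal.ofReal (kk θ L γ b ε v m (co m σ) * G (v + hh σ m)) ∂(surf d)) +
        ∫⁻ σ in {σ : Vec d | 0 < dot m σ}, fpt θ L γ b ε G v m σ ∂(surf d) := by
  classical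
  rw [← lintegral_add_left (tw_nm H θ L hε hG v m).ennreal_ofReal]
  unfold GMg
  apply lintegral_congr_ae
  filter_upwards [ae_restrict_of_ae surf_ae, ae_restrict_mem (measurableSet_half m)] with σ hσ hd
  exact tw_split θ L G hσ hd

private lemma tw_near {v m σ : Vec d} {θ L ε : ℝ} (hσ : nsq σ = 1)
    (hm : 0 < dot m σ) (h : kk θ L γ b ε v m (co m σ) ≠ 0) :
    nsq (v + hh σ m - v) ≤ 1 / 4 * (1 + nsq v) ∧ nr v m (co m σ) := by
  classical
  have hc := co_pos hm
  have h1 : nr v m (co m σ) := by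
    unfold kk at h
    split_ifs at h with h2
    · exact h2.2.1
    · exact absurd rfl h
  refine ⟨?_, h1⟩
  rw [add_sub_cancel_left, nsq_hh hσ hm, ← mul_div_assoc, div_le_iff₀ (by positivity)]
  exact le_of_lt h1

/-- **the regular gain of the perturbed comparison function** -/
theorem GMg_PW (H : Hyp d γ s b C Ca) (hβ0 : 0 ≤ β) (hβ1 : β ≤ 1) {δ : ℝ} (hδ1 : δ ≤ 1) {c : ℝ}
    (hc : 0 ≤ c) {v : Vec d} {P : Vec d → ℝ} (hP : PCond δ β v P) (θ L : ℝ) {m : Vec d} (hm0 : m ≠ 0)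
    {ε : ℝ} (hε : 0 < ε) :
    GMg γ b ε (TbP p c v P) (RegS θ L v) v m ≤ GMg γ b ε (Tb p c v) (RegS θ L v) v m +
      ENNReal.ofReal (KP p * δ) * GMg γ b ε (fun u => Tb p c v u * mm β v u) (RegS θ L v) v m := by
  classical
  have hδ : 0 ≤ δ := (abs_nonneg _).trans (hP.bd v)
  have hTm := Tb_meas p c v
  have hMm := mm_meas β v
  have hA := tb_pos v
  set K' : ℝ := (1 + 10 * p * 4 ^ p) * 4 ^ p with hK'
  have hK'0 : 0 ≤ K' := by positivity
  set half : Set (Vec d) := {σ : Vec d | 0 < dot m σ} with hhalf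
  obtain ⟨k, hk⟩ : ∃ k : ℝ → ℝ, k = kk θ L γ b ε v m := ⟨_, rfl⟩
  have hkr := kk_rad H θ L hε v m
  have hnm : ∀ G : Vec d → ℝ, Measurable G → Measurable fun σ : Vec d => k (co m σ) * G (v + hh σ m) := by
    intro G hG
    rw [hk]
    exact tw_nm H θ L hε hG v m
  have hnear0 : ∀ σ : Vec d, nsq σ = 1 → 0 < dot m σ → k (co m σ) ≠ 0 →
      nsq (v + hh σ m - v) ≤ 1 / 4 * (1 + nsq v) ∧ nr v m (co m σ) := by
    intro σ hσ hd hne
    rw [hk] at hne
    exact tw_near hσ hd hne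
  have hTreg : ∀ σ : Vec d, nsq σ = 1 → 0 < dot m σ → k (co m σ) ≠ 0 →
      Tb p c v (v + hh σ m) ≤ 4 ^ p * c := by
    intro σ hσ hd hne
    have h1 := (hnear0 σ hσ hd hne).2
    have h3 : (v - m, v + hh σ m) ∈ RegS θ L v := by
      rw [tw_mem hσ hd h1]
      rw [hk] at hne
      unfold kk at hne
      split_ifs at hne with h5
      · exact h5.2.2
      · exact absurd rfl hne
    exact Tb_reg hc h3
  have eGM : ∀ G : Vec d → ℝ, Measurable G → GMg γ b ε G (RegS θ L v) v m =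
      (∫⁻ σ in {σ : Vec d | 0 < dot m σ}, ENNReal.ofReal (k (co m σ) * G (v + hh σ m)) ∂(surf d)) +
        ∫⁻ σ in {σ : Vec d | 0 < dot m σ}, fpt θ L γ b ε G v m σ ∂(surf d) := by
    intro G hG
    rw [hk]
    exact tw_GM H θ L hε hG v m
  rw [← hk] at hkr
  clear hk
  obtain ⟨B, hB⟩ := hkr.bdd
  have hk0 := hkr.nonneg
  have hB0 : 0 ≤ B := (hk0 0).trans (hB 0)
  set μ := (surf d).restrict half with hμ
  -- pointwise facts
  have hpt : ∀ᵐ σ ∂μ, k (co m σ) ≠ 0 → |Tb p c v (v + hh σ m) - c| ≤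
      10 * p * 4 ^ p * c * mm β v (v + hh σ m) ∧ c ≤ 4 ^ p * Tb p c v (v + hh σ m) := by
    rw [hμ]
    filter_upwards [ae_restrict_of_ae surf_ae, ae_restrict_mem (measurableSet_half m)] with σ hσ hd hne
    have h1 := (hnear0 σ hσ hd hne).1
    have h1' : nsq (hh σ m) ≤ 1 / 4 * (1 + nsq v) := by rwa [add_sub_cancel_left] at h1
    have h2 := tw_lip hc h1' p
    have h3 := tw_mm hβ1 h1
    rw [add_sub_cancel_left] at h3
    refine ⟨h2.trans (mul_le_mul_of_nonneg_left h3 (by positivity)), ?_⟩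
    have h4 := Tb_low (p := p) hc (v := v) (u := v + hh σ m) (by
      rw [add_sub_cancel_left]; have := sq_nonneg' v; linarith)
    rw [div_le_iff₀ (by positivity)] at h4
    linarith
  -- integrability
  have hint : ∀ G : Vec d → ℝ, Measurable G → ∀ D : ℝ, (∀ u, |G u| ≤ D) →
      Integrable (fun σ => k (co m σ) * G (v + hh σ m)) μ := by
    intro G hG D hD
    refine Integrable.of_bound (hnm G hG).aestronglyMeasurable (B * D)
      (Eventually.of_forall fun σ => ?_)
    rw [Real.norm_eq_abs, abs_mul, abs_of_nonneg (hk0 _)]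
    exact mul_le_mul (hB _) (hD _) (abs_nonneg _) hB0
  have hTbd : ∀ᵐ σ ∂μ, k (co m σ) ≠ 0 → Tb p c v (v + hh σ m) ≤ 4 ^ p * c := by
    rw [hμ]
    filter_upwards [ae_restrict_of_ae surf_ae, ae_restrict_mem (measurableSet_half m)] with σ hσ hd hne
    exact hTreg σ hσ hd hne
  have hintT : ∀ G : Vec d → ℝ, Measurable G → ∀ D : ℝ, (∀ u, |G u| ≤ D) →
      Integrable (fun σ => k (co m σ) * (Tb p c v (v + hh σ m) * G (v + hh σ m))) μ := by
    intro G hG D hD
    have hD0 : 0 ≤ D := (abs_nonneg _).trans (hD v)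
    refine Integrable.of_bound (hnm _ (hTm.mul hG)).aestronglyMeasurable
      (B * (4 ^ p * c * D)) ?_
    filter_upwards [hTbd] with σ h1
    rw [Real.norm_eq_abs, abs_mul, abs_of_nonneg (hk0 _)]
    by_cases h0 : k (co m σ) = 0
    · rw [h0, zero_mul]; positivity
    · rw [abs_mul, abs_of_nonneg (Tb_nonneg hc v _)]
      exact mul_le_mul (hB _) (mul_le_mul (h1 h0) (hD _) (abs_nonneg _) (by positivity))
        (mul_nonneg (Tb_nonneg hc v _) (abs_nonneg _)) hB0
  have hmb : ∀ u, |mm β v u| ≤ 1 := fun u => by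
    rw [abs_of_nonneg (mm_nonneg β v u)]; exact mm_le_one hβ0 v u
  have i1 := hintT (fun _ => 1) measurable_const 1 (fun _ => by simp)
  simp only [mul_one] at i1
  have i2 := hintT P hP.meas δ hP.bd
  have i3 := hintT (mm β v) hMm 1 hmb
  have i4 := hint P hP.meas δ hP.bd
  have i5 := hint (mm β v) hMm 1 hmb
  -- the near part
  have hreal : ∫ σ, k (co m σ) * TbP p c v P (v + hh σ m) ∂μ ≤
      (∫ σ, k (co m σ) * Tb p c v (v + hh σ m) ∂μ) +
        K' * δ * ∫ σ, k (co m σ) * (Tb p c v (v + hh σ m) * mm β v (v + hh σ m)) ∂μ := by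
    have e1 : ∫ σ, k (co m σ) * TbP p c v P (v + hh σ m) ∂μ =
        (∫ σ, k (co m σ) * Tb p c v (v + hh σ m) ∂μ) +
          ∫ σ, k (co m σ) * (Tb p c v (v + hh σ m) * P (v + hh σ m)) ∂μ := by
      rw [← integral_add i1 i2]
      refine integral_congr_ae (Eventually.of_forall fun σ => ?_)
      simp only [TbP]
      ring
    have e2 : ∫ σ, k (co m σ) * (Tb p c v (v + hh σ m) * P (v + hh σ m)) ∂μ ≤
        c * (∫ σ, k (co m σ) * P (v + hh σ m) ∂μ) +
          10 * p * 4 ^ p * c * δ * ∫ σ, k (co m σ) * mm β v (v + hh σ m) ∂μ := by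
      rw [← integral_const_mul, ← integral_const_mul, ← integral_add (i4.const_mul _) (i5.const_mul _)]
      refine integral_mono_ae i2 ((i4.const_mul _).add (i5.const_mul _)) ?_
      filter_upwards [hpt] with σ h1
      by_cases h0 : k (co m σ) = 0
      · rw [h0]; simp
      · have h2 := (h1 h0).1
        have h3 := hP.bd (v + hh σ m)
        have h4 := hk0 (co m σ)
        have h5 : (Tb p c v (v + hh σ m) - c) * P (v + hh σ m) ≤
            10 * p * 4 ^ p * c * mm β v (v + hh σ m) * δ := by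
          refine (le_abs_self _).trans ?_
          rw [abs_mul]
          exact mul_le_mul h2 h3 (abs_nonneg _) ((abs_nonneg _).trans h2)
        have h6 := mul_le_mul_of_nonneg_left h5 h4
        nlinarith
    have e3 := hP.az m hm0 k hkr
    have e4 : c * (∫ σ, k (co m σ) * P (v + hh σ m) ∂μ) ≤
        c * (δ * ∫ σ, k (co m σ) * mm β v (v + hh σ m) ∂μ) := mul_le_mul_of_nonneg_left e3 hc
    have e5 : c * (∫ σ, k (co m σ) * mm β v (v + hh σ m) ∂μ) ≤
        4 ^ p * ∫ σ, k (co m σ) * (Tb p c v (v + hh σ m) * mm β v (v + hh σ m)) ∂μ := by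
      rw [← integral_const_mul, ← integral_const_mul]
      refine integral_mono_ae (i5.const_mul _) (i3.const_mul _) ?_
      filter_upwards [hpt] with σ h1
      by_cases h0 : k (co m σ) = 0
      · rw [h0]; simp
      · have h2 := (h1 h0).2
        have h4 := mul_nonneg (hk0 (co m σ)) (mm_nonneg β v (v + hh σ m))
        have h6 := mul_le_mul_of_nonneg_right h2 h4
        nlinarith
    rw [e1]
    have h7 : 0 ≤ (1 + 10 * p * 4 ^ p) * δ := by positivity
    have h8 := mul_le_mul_of_nonneg_left e5 h7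
    rw [hK']
    nlinarith
  have hnear : ∫⁻ σ, ENNReal.ofReal (k (co m σ) * TbP p c v P (v + hh σ m)) ∂μ ≤
      (∫⁻ σ, ENNReal.ofReal (k (co m σ) * Tb p c v (v + hh σ m)) ∂μ) +
        ENNReal.ofReal (K' * δ) *
          ∫⁻ σ, ENNReal.ofReal (k (co m σ) * (Tb p c v (v + hh σ m) * mm β v (v + hh σ m))) ∂μ := by
    have n1 : ∀ σ, 0 ≤ k (co m σ) * Tb p c v (v + hh σ m) := fun σ =>
      mul_nonneg (hk0 _) (Tb_nonneg hc v _)
    have n2 : ∀ σ, 0 ≤ k (co m σ) * (Tb p c v (v + hh σ m) * mm β v (v + hh σ m)) := fun σ =>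
      mul_nonneg (hk0 _) (mul_nonneg (Tb_nonneg hc v _) (mm_nonneg _ _ _))
    have n3 : ∀ σ, 0 ≤ k (co m σ) * TbP p c v P (v + hh σ m) := fun σ =>
      mul_nonneg (hk0 _) (TbP_nonneg hP hδ1 hc _)
    have i6 : Integrable (fun σ => k (co m σ) * TbP p c v P (v + hh σ m)) μ := by
      refine (i1.add i2).congr (Eventually.of_forall fun σ => ?_)
      simp only [TbP, Pi.add_apply]
      ring
    rw [← ofReal_integral_eq_lintegral_ofReal i6 (Eventually.of_forall n3),
      ← ofReal_integral_eq_lintegral_ofReal i1 (Eventually.of_forall n1),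
      ← ofReal_integral_eq_lintegral_ofReal i3 (Eventually.of_forall n2),
      ← ENNReal.ofReal_mul (by positivity), ← ENNReal.ofReal_add (integral_nonneg n1)
        (mul_nonneg (by positivity) (integral_nonneg n2))]
    exact ENNReal.ofReal_le_ofReal hreal
  -- the far part
  have hTPm : Measurable (TbP p c v P) := TbP_meas hP.meas p c v
  have hTMm : Measurable fun u => Tb p c v u * mm β v u := hTm.mul hMm
  have hfm : ∀ G : Vec d → ℝ, Measurable G → Measurable fun σ => fpt θ L γ b ε G v m σ := by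
    intro G hG
    have hSm : MeasurableSet {σ : Vec d | (v - m, v + hh σ m) ∈ RegS θ L v} :=
      (measurable_const.prodMk (tw_hh v m)) (measurableSet_RegS θ L v)
    have hNm : MeasurableSet {σ : Vec d | ¬ nr v m (co m σ)} := by
      have h2 : MeasurableSet {c : ℝ | nr v m c} := by
        unfold nr
        exact measurableSet_lt (by fun_prop) (by fun_prop)
      exact ((tw_co m) h2).compl
    exact Measurable.ite (hSm.inter hNm)
      ((((tw_Kn γ (measurable_bt H.bm ε)).comp (tw_co m)).mul (hG.comp (tw_hh v m))).ennreal_ofReal)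
      measurable_const
  have hfar : ∫⁻ σ, fpt θ L γ b ε (TbP p c v P) v m σ ∂μ ≤
      (∫⁻ σ, fpt θ L γ b ε (Tb p c v) v m σ ∂μ) +
        ENNReal.ofReal (2 * δ) * ∫⁻ σ, fpt θ L γ b ε (fun u => Tb p c v u * mm β v u) v m σ ∂μ := by
    rw [← lintegral_const_mul _ (hfm _ hTMm), ← lintegral_add_left (hfm _ hTm)]
    apply lintegral_mono_ae
    rw [hμ]
    filter_upwards [ae_restrict_of_ae surf_ae, ae_restrict_mem (measurableSet_half m)] with σ hσ hd
    have hK := fast_Kn0 (γ := γ) H.bd hε hσ hd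
    unfold fpt
    split_ifs with h1
    · have hT := Tb_nonneg (p := p) hc v (v + hh σ m)
      have hcc := co_pos hd
      have h2 : 1 / 4 * (1 + nsq v) ≤ nsq (v + hh σ m - v) := by
        rw [add_sub_cancel_left, nsq_hh hσ hd, ← mul_div_assoc, le_div_iff₀ (by positivity)]
        exact not_lt.1 h1.2
      have h3 := tw_far hβ0 hβ1 h2
      have h4 := (abs_le.1 (hP.bd (v + hh σ m))).2
      have h5 : TbP p c v P (v + hh σ m) ≤ Tb p c v (v + hh σ m) +
          2 * δ * (Tb p c v (v + hh σ m) * mm β v (v + hh σ m)) := by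
        unfold TbP
        have h6 : δ ≤ 2 * δ * mm β v (v + hh σ m) := by nlinarith
        have h7 := mul_le_mul_of_nonneg_left (h4.trans h6) hT
        nlinarith
      rw [← ENNReal.ofReal_mul (by positivity), ← ENNReal.ofReal_add (mul_nonneg hK hT)
        (mul_nonneg (by positivity) (mul_nonneg hK (mul_nonneg hT (mm_nonneg _ _ _))))]
      refine ENNReal.ofReal_le_ofReal ?_
      have h8 := mul_le_mul_of_nonneg_left h5 hK
      linarith
    · simp
  rw [eGM _ hTPm, eGM _ hTm, eGM _ hTMm]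
  have hk1 : ENNReal.ofReal (K' * δ) ≤ ENNReal.ofReal (KP p * δ) := by
    refine ENNReal.ofReal_le_ofReal (mul_le_mul_of_nonneg_right ?_ hδ)
    unfold KP; linarith
  have hk2 : ENNReal.ofReal (2 * δ) ≤ ENNReal.ofReal (KP p * δ) := by
    refine ENNReal.ofReal_le_ofReal (mul_le_mul_of_nonneg_right ?_ hδ)
    unfold KP; linarith
  calc _ ≤ _ := add_le_add hnear hfar
    _ ≤ ((∫⁻ σ, ENNReal.ofReal (k (co m σ) * Tb p c v (v + hh σ m)) ∂μ) +
        ENNReal.ofReal (KP p * δ) *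
          ∫⁻ σ, ENNReal.ofReal (k (co m σ) * (Tb p c v (v + hh σ m) * mm β v (v + hh σ m))) ∂μ) +
        ((∫⁻ σ, fpt θ L γ b ε (Tb p c v) v m σ ∂μ) +
        ENNReal.ofReal (KP p * δ) *
          ∫⁻ σ, fpt θ L γ b ε (fun u => Tb p c v u * mm β v u) v m σ ∂μ) := by gcongr
    _ = _ := by rw [mul_add]; ring

end Pool.Agent.H67.NW
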